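import Pool.Agent.Y472.A.Final
import Pool.Agent.Y482.Ph.Defs

/-!
# Closed 3-braids: the exact formula at the root of unity with its phase (task PH-EXP)
-/

set_option autoImplicit false

namespace Pool.Agent.Y814.PH.Gd

open Filter Finset EvenVol Pool.Agent.W709.VC Pool.Agent.H112R4.VL MeasureTheory
open Pool.Agent.W349.HT (EZ PZ PZ_cont EZ_diff EZ_symm QZ FZ rect_FZ rect_upp FZ_odd FZ_RI zz_one)
open Pool.Agent.Y686.CB
open scoped Real Topology

/-- the limit of the divided differences, with the explicit factor -/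
theorem gdx (N : ℕ) (hN : 2 ≤ N) (a : ℤ) (i j : ℕ) (hij : i ≤ j) (hj : j < N) :
    ∃ G : ℂ → ℂ, DifferentiableAt ℂ G 0 ∧
    G 0 = Cf N 0 ^ a * Complex.I * Pool.Agent.Y472.cJ N a i j ∧
    ∀ᶠ ε in 𝓝[≠] (0 : ℂ), G ε =
      Pool.Agent.Y472.gd (Pool.Agent.W711.HT.vN N) (-Complex.exp ε) a i j := by
  have hNp : 0 < N := by omega
  have hNr : (0 : ℝ) < N := by exact_mod_cast hNp
  refine ⟨Gf N a i j, ?_, ?_, near hN a hij hj⟩
  · -- removable singularity
    have hd : ∀ᶠ ε in 𝓝[≠] (0 : ℂ), DifferentiableAt ℂ (Gf N a i j) ε := by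
      have h1 := eventually_eventually_nhdsWithin.2 (near hN a hij hj)
      filter_upwards [h1, small_ev hNp, self_mem_nhdsWithin] with ε h2 h3 h4
      have h4' : ε ≠ 0 := h4
      have h5 : 𝓝[≠] ε ≤ 𝓝 ε := nhdsWithin_le_nhds
      have h6 : Gf N a i j =ᶠ[𝓝 ε] fun ε => Pool.Agent.Y472.gd (Pool.Agent.W711.HT.vN N)
          (-Complex.exp ε) a i j := by
        have h7 : 𝓝[{0}ᶜ] ε = 𝓝 ε := isOpen_compl_singleton.nhdsWithin_eq h4'
        rw [h7] at h2
        exact h2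
      exact (gd_diff hNp a hj h4' h3).congr_of_eventuallyEq h6
    exact (Complex.analyticAt_of_differentiable_on_punctured_nhds_of_continuousAt hd
      (Gf_cont hNp a hj)).differentiableAt
  · have e1 : ∀ φ, QG (Icc i j) (zn N 0) φ = QZ N (Icc i j) (1, 1) φ := by
      intro φ
      unfold QG Pool.Agent.W349.HT.QZ
      refine Finset.prod_congr rfl fun k _ => ?_
      rw [zn_zero, zz_one]
    unfold Gf
    simp only [e1]
    have hpi0 : (π : ℂ) ≠ 0 := by exact_mod_cast Real.pi_ne_zero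
    have hI0 : Complex.I ≠ 0 := Complex.I_ne_zero
    have hh : (0 : ℝ) < 1 / N := by positivity
    rw [rect_FZ a hj hij hh, rect_upp hh (FZ_odd a N i j) (FZ_RI a hNp hh)]
    have e2 : Pool.Agent.Y472.cJ N a i j = (-1) ^ (N - 1 - j + i) / (2 * π) *
        Pool.Agent.W711.HT.upp (1 / N) (FZ a N i j) := rfl
    rw [e2]
    field_simp
    rw [Complex.I_sq]
    ring

end Pool.Agent.Y814.PH.Gd

namespace Pool.Agent.Y814.PH

open Finset Filter Topology Pool.Agent.Y472 Pool.Agent.H550R3.Jones Pool.Agent.W711.HT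
open Pool.Agent.Y967.CB
open scoped Real

theorem exp_formula : Pool.Agent.Y482.Ph.S_EXP := by
  intro N ls m hN hl
  have hTRG := Pool.Agent.Y448.CB.trg
  obtain ⟨c, hc⟩ : ∃ c : ℤ → ℂ, c = fun a => Pool.Agent.Y686.CB.Cf N 0 ^ a * Complex.I := ⟨_, rfl⟩
  have hG' : ∀ (a : ℤ) (i j : ℕ), ∃ G : ℂ → ℂ, i ≤ j → j < N → (DifferentiableAt ℂ G 0 ∧
      G 0 = c a * cJ N a i j ∧
      ∀ᶠ ε in 𝓝[≠] (0 : ℂ), G ε = gd (vN N) (-Complex.exp ε) a i j) := by
    intro a i j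
    by_cases h : i ≤ j ∧ j < N
    · obtain ⟨G, h1, h2, h3⟩ := Pool.Agent.Y814.PH.Gd.gdx N hN a i j h.1 h.2
      rw [hc]
      exact ⟨G, fun _ _ => ⟨h1, h2, h3⟩⟩
    · exact ⟨0, fun h1 h2 => absurd ⟨h1, h2⟩ h⟩
  choose G hGs using hG'
  have hGd : ∀ a i j, i ≤ j → j < N → DifferentiableAt ℂ (G a i j) 0 :=
    fun a i j h1 h2 => (hGs a i j h1 h2).1
  have hG0 : ∀ a i j, i ≤ j → j < N → G a i j 0 = c a * cJ N a i j :=
    fun a i j h1 h2 => (hGs a i j h1 h2).2.1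
  have hRt := Pool.Agent.Y195.CB.rtv N hN
  obtain ⟨hcj, hcont⟩ := Pool.Agent.Y195.CB.jlc N (ftw m ++ bw ls) hN
  -- the values of the polynomial
  have hJ : Tendsto (fun ε : ℂ => JL N (vN N) (-Complex.exp ε) (ftw m ++ bw ls)) (𝓝 0)
      (𝓝 (cjones N 2 (ftw m ++ bw ls) (vN N))) := by
    rw [← hcj]
    have h1 : Tendsto (fun ε : ℂ => -Complex.exp ε) (𝓝 0) (𝓝 (-1)) := by
      have h2 : Tendsto (fun ε : ℂ => -Complex.exp ε) (𝓝 0) (𝓝 (-Complex.exp 0)) :=
        (Complex.continuous_exp.tendsto 0).neg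
      rwa [Complex.exp_zero] at h2
    exact hcont.tendsto.comp h1
  -- the sum is equal to its continuation
  have hev : ∀ᶠ ε in 𝓝[≠] (0 : ℂ), ∀ x ∈ ls, ∀ i j : ℕ, i ≤ j → j < N →
      G x.1 i j ε = gd (vN N) (-Complex.exp ε) x.1 i j ∧
      G x.2 i j ε = gd (vN N) (-Complex.exp ε) x.2 i j := by
    have h1 : ∀ᶠ ε in 𝓝[≠] (0 : ℂ), ∀ x ∈ ls.toFinset, ∀ j ∈ range N, ∀ i ∈ range (j + 1),
        G x.1 i j ε = gd (vN N) (-Complex.exp ε) x.1 i j ∧
        G x.2 i j ε = gd (vN N) (-Complex.exp ε) x.2 i j := by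
      rw [Filter.eventually_all_finset]
      intro x _
      rw [Filter.eventually_all_finset]
      intro j hj
      rw [Filter.eventually_all_finset]
      intro i hi
      have hj' := Finset.mem_range.mp hj
      have hi' : i ≤ j := by
        have := Finset.mem_range.mp hi
        omega
      exact ((hGs x.1 i j hi' hj').2.2).and ((hGs x.2 i j hi' hj').2.2)
    filter_upwards [h1] with ε hε x hx i j hij hj
    exact hε x (List.mem_toFinset.mpr hx) j (Finset.mem_range.mpr hj) i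
      (Finset.mem_range.mpr (by omega))
  have hK : ∀ᶠ ε : ℝ in 𝓝[≠] 0, JL N (vN N) (-Complex.exp (ε : ℂ)) (ftw m ++ bw ls) *
      gf N (ε : ℂ) = -(2 * Complex.I) * (kap N m (ε : ℂ) * SS N G ls m (ε : ℂ)) := by
    filter_upwards [tendsto_real.eventually hev, self_mem_nhdsWithin] with ε hε h0
    have hε0 : ε ≠ 0 := h0
    have hn : ‖-Complex.exp (ε : ℂ)‖ = Real.exp ε := by
      rw [norm_neg, Complex.norm_exp, Complex.ofReal_re]
    have hn1 : ‖-Complex.exp (ε : ℂ)‖ ≠ 1 := by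
      rw [hn]
      intro h
      exact hε0 ((Real.exp_eq_one_iff ε).mp h)
    have hl0 : -Complex.exp (ε : ℂ) ≠ 0 := neg_ne_zero.mpr (Complex.exp_ne_zero _)
    have hGl : Gl (-Complex.exp (ε : ℂ)) := ⟨hl0, hn1⟩
    have hT := hTRG Pool.Agent.Y195.CB.jlx Pool.Agent.Y833.CB.basf Pool.Agent.Y494.CB.pt
      Pool.Agent.Y516.CB.act Pool.Agent.Y516.CB.ft Pool.Agent.Y317.CB.hatm Pool.Agent.Y317.CB.gd3
      Pool.Agent.Y833.CB.dec Pool.Agent.Y833.CB.dds Pool.Agent.Y494.CB.bas Pool.Agent.Y228.CB.hvt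
      Pool.Agent.Y807.CB.sig1 Pool.Agent.Y807.CB.sig2 Pool.Agent.Y807.CB.sigt Pool.Agent.Y317.CB.th
      Pool.Agent.Y574.CB.nil Pool.Agent.Y678.CB.qv Pool.Agent.Y678.CB.vwp Pool.Agent.Y833.CB.tas
      Pool.Agent.Y317.CB.x12 Pool.Agent.Y833.CB.spl Pool.Agent.Y678.CB.bid N (vN N) (-Complex.exp (ε : ℂ)) hRt hGl ls m
    rw [sum_eq N hN G ls m (ε : ℂ) hε] at hT
    rw [hT, gf, SS]
    have hpow : ∀ k : ℕ, k ≠ 0 → cb ((-Complex.exp (ε : ℂ)) ^ k) ≠ 0 := by
      intro k hk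
      refine cb_ne (pow_ne_zero _ hl0) ?_
      rw [norm_pow]
      intro h
      exact hn1 ((pow_eq_one_iff_of_nonneg (norm_nonneg _) hk).mp h)
    have hcl : cb (-Complex.exp (ε : ℂ)) ≠ 0 := cb_ne hl0 hn1
    have hcy : cb ((-Complex.exp (ε : ℂ)) ^ N) ≠ 0 := hpow N (by omega)
    have hc3 : cb ((-Complex.exp (ε : ℂ)) ^ (3 * N)) ≠ 0 := hpow (3 * N) (by omega)
    have hy0 : (-Complex.exp (ε : ℂ)) ^ N ≠ 0 := pow_ne_zero _ hl0
    have e2 : (-Complex.exp (ε : ℂ)) ^ (2 * N) = ((-Complex.exp (ε : ℂ)) ^ N) ^ 2 := by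
      rw [← pow_mul]; congr 1; ring
    have e3 : cb ((-Complex.exp (ε : ℂ)) ^ (3 * N)) = cb ((-Complex.exp (ε : ℂ)) ^ N) *
        (((-Complex.exp (ε : ℂ)) ^ N) ^ 2 + 1 + (((-Complex.exp (ε : ℂ)) ^ N) ^ 2)⁻¹) := by
      have : (-Complex.exp (ε : ℂ)) ^ (3 * N) = ((-Complex.exp (ε : ℂ)) ^ N) ^ 3 := by
        rw [← pow_mul]; congr 1; ring
      rw [this, cb, cb]
      field_simp
      ring
    rw [e3] at hc3
    have hq := right_ne_zero_of_mul hc3
    rw [e2, e3]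
    generalize (-Complex.exp (ε : ℂ)) ^ N = y at *
    generalize cb (-Complex.exp (ε : ℂ)) = cl at *
    generalize (∑ p ∈ range N, (wE N m (chi N p ε) * Te N G ls ε (chi N p ε) +
        wE N m (chi N p ε) * He N G ls p ε (chi N p ε) *
          (Complex.exp (-6 * m * N * ε) - 1))) = tot at *
    generalize y ^ 2 + 1 + (y ^ 2)⁻¹ = q at *
    generalize cb y = cy at *
    field_simp
  -- the derivative
  have hS := SS_deriv hN hGd c hG0 ls m
  have hS0 : SS N G ls m 0 = 0 := SS_zero hN ls m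
  have hKd : HasDerivAt (fun ε : ℂ => -(2 * Complex.I) * (kap N m ε * SS N G ls m ε))
      (-(2 * Complex.I) * (deriv (kap N m) 0 * SS N G ls m 0 + kap N m 0 *
        (CC c ls * (-3 * Complex.I) *
      (∑ p ∈ range N, deriv (fun χ => wE N m χ * Tf N ls χ) (2 * π * p / N) -
      2 * Complex.I * m * N * ∑ p ∈ range N, wE N m (2 * π * p / N) * Thi N ls p)))) 0 :=
    ((kap_diff N m).hasDerivAt.mul hS).const_mul _
  have hsl := (hasDerivAt_iff_tendsto_slope.mp hKd).comp tendsto_real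
  have hgl := (hasDerivAt_iff_tendsto_slope.mp (gf_deriv N)).comp tendsto_real
  have hJ' : Tendsto (fun ε : ℝ => JL N (vN N) (-Complex.exp (ε : ℂ)) (ftw m ++ bw ls))
      (𝓝[≠] 0) (𝓝 (cjones N 2 (ftw m ++ bw ls) (vN N))) :=
    (hJ.mono_left nhdsWithin_le_nhds).comp tendsto_real
  have hprod := hJ'.mul hgl
  have heq : (slope (fun ε : ℂ => -(2 * Complex.I) * (kap N m ε * SS N G ls m ε)) 0 ∘
      fun ε : ℝ => (ε : ℂ)) =ᶠ[𝓝[≠] 0] fun ε : ℝ =>
      JL N (vN N) (-Complex.exp (ε : ℂ)) (ftw m ++ bw ls) *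
        (slope (gf N) 0 ∘ fun ε : ℝ => (ε : ℂ)) ε := by
    filter_upwards [hK] with ε hε
    simp only [Function.comp, slope, vsub_eq_sub, smul_eq_mul, sub_zero, gf_zero, hS0, mul_zero]
    rw [← hε]
    ring
  have hlim := tendsto_nhds_unique (hsl.congr' heq) hprod
  rw [hS0, mul_zero, zero_add] at hlim
  have hk0 : kap N m 0 = vN N ^ (4 * m) := by
    rw [kap]
    simp only [mul_zero, ne_eq, OfNat.ofNat_ne_zero, not_false_eq_true, zero_pow, zero_div,
      add_zero, Complex.exp_zero, mul_one]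
    rw [← zpow_natCast, ← zpow_mul]
    norm_num
  have hCf : Pool.Agent.Y686.CB.Cf N 0 = Pool.Agent.W719.AR.kp N := by
    have hN0 : (N : ℂ) ≠ 0 := by
      have : N ≠ 0 := by omega
      exact_mod_cast this
    rw [Pool.Agent.Y686.CB.Cf, Pool.Agent.W719.AR.kp]
    congr 2
    simp only [mul_zero, ne_eq, OfNat.ofNat_ne_zero, not_false_eq_true, zero_pow, zero_div,
      add_zero, sub_zero]
    field_simp
    ring
  have hCC : CC c ls = (-1) ^ ls.length * Pool.Agent.W719.AR.kp N ^ (Pool.Agent.Y481.wts ls).sum := by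
    have hne : Pool.Agent.W719.AR.kp N ≠ 0 := by
      rw [← hCf]
      exact Pool.Agent.Y686.CB.Cf_ne N 0
    rw [hc, hCf, CC, Pool.Agent.Y481.wts]
    clear * - hne
    induction ls with
    | nil => simp
    | cons x l ih =>
      rw [List.map_cons, List.prod_cons, ih, List.map_cons, List.flatten_cons, List.sum_append,
        List.length_cons, zpow_add₀ hne, pow_succ]
      have e1 : ([x.1, x.2] : List ℤ).sum = x.1 + x.2 := by simp
      rw [e1, zpow_add₀ hne]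
      linear_combination (Pool.Agent.W719.AR.kp N ^ x.1 * Pool.Agent.W719.AR.kp N ^ x.2 *
        ((-1) ^ l.length * Pool.Agent.W719.AR.kp N ^
          (List.map (fun p : ℤ × ℤ => [p.1, p.2]) l).flatten.sum)) * Complex.I_sq
  rw [Pool.Agent.Y482.Ph.pz, Pool.Agent.Y482.Ph.SB]
  rw [hk0, hCC] at hlim
  linear_combination (1 / 6 : ℂ) * hlim - (vN N ^ (4 * m) * ((-1) ^ ls.length *
    Pool.Agent.W719.AR.kp N ^ (Pool.Agent.Y481.wts ls).sum) *
    (∑ p ∈ range N, deriv (fun χ => wE N m χ * Tf N ls χ) (2 * π * p / N) -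
      2 * Complex.I * m * N * ∑ p ∈ range N, wE N m (2 * π * p / N) * Thi N ls p)) * Complex.I_sq

end Pool.Agent.Y814.PH
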