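import Pool.Agent.Y482.Ph.Defs
import Pool.Agent.W571.FE.EM

/-!
# PH-EMT: expansion of `Tg N d χ` (Euler-Maclaurin)
-/

set_option autoImplicit false

namespace Pool.Agent.Y814.PH.Emt

open Finset Filter Topology Metric
open Pool.Agent.W711.HT Pool.Agent.Y472
open scoped Real

/-- the factor -/
noncomputable def HH (χ w : ℂ) : ℂ := 2 * Complex.cos χ - 2 * Complex.cos (2 * π * w)

theorem continuous_HH : Continuous (fun p : ℂ × ℂ => HH p.1 p.2) := by
  unfold HH
  fun_prop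

theorem HH_symm (χ w : ℂ) : HH χ (1 - w) = HH χ w := by
  unfold HH
  rw [show 2 * (π : ℂ) * (1 - w) = 2 * π - 2 * π * w by ring, Complex.cos_two_pi_sub]

theorem cos_bound0 (x : ℝ) (h0 : 3 / 16 ≤ x) (h1 : x ≤ 1 / 2) : Real.cos (2 * π * x) < 1 / 2 := by
  have hpi := Real.pi_pos
  rw [← Real.cos_pi_div_three]
  apply Real.cos_lt_cos_of_nonneg_of_le_pi
  · positivity
  · nlinarith
  · nlinarith

theorem cos_bound (x : ℝ) (h0 : 3 / 16 ≤ x) (h1 : x ≤ 13 / 16) : Real.cos (2 * π * x) < 1 / 2 := by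
  rcases le_total x (1 / 2) with h | h
  · exact cos_bound0 x h0 h
  · have h2 := cos_bound0 (1 - x) (by linarith) (by linarith)
    rwa [show 2 * π * (1 - x) = 2 * π - 2 * π * x by ring, Real.cos_two_pi_sub] at h2

/-- the good region -/
def OO : Set (ℂ × ℂ) := {p | 1 < (HH p.1 p.2).re ∧ ‖HH p.1 p.2‖ < 5}

theorem isOpen_OO : IsOpen OO := by
  have h1 : IsOpen {p : ℂ × ℂ | 1 < (HH p.1 p.2).re} :=
    isOpen_lt continuous_const (Complex.continuous_re.comp continuous_HH)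
  have h2 : IsOpen {p : ℂ × ℂ | ‖HH p.1 p.2‖ < 5} :=
    isOpen_lt continuous_HH.norm continuous_const
  exact h1.inter h2

/-- the compact segment -/
def KS : Set (ℂ × ℂ) := (fun x : ℝ => ((0 : ℂ), (x : ℂ))) '' Set.Icc (3 / 16 : ℝ) (13 / 16)

theorem isCompact_KS : IsCompact KS := by
  unfold KS
  apply isCompact_Icc.image
  exact continuous_const.prodMk Complex.continuous_ofReal

theorem KS_sub : KS ⊆ OO := by
  rintro p ⟨x, hx, rfl⟩
  have e1 : HH 0 (x : ℂ) = ((2 - 2 * Real.cos (2 * π * x) : ℝ) : ℂ) := by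
    unfold HH
    rw [Complex.cos_zero]
    push_cast
    ring
  have e2 := cos_bound x hx.1 hx.2
  have e3 := Real.neg_one_le_cos (2 * π * x)
  have e4 : 1 < (HH 0 (x : ℂ)).re := by
    rw [e1, Complex.ofReal_re]
    linarith
  have e5 : ‖HH 0 (x : ℂ)‖ < 5 := by
    rw [e1, Complex.norm_real, Real.norm_eq_abs, abs_of_pos (by linarith)]
    linarith
  exact ⟨e4, e5⟩

theorem mem_KS (x : ℝ) (h0 : 3 / 16 ≤ x) (h1 : x ≤ 13 / 16) : ((0 : ℂ), (x : ℂ)) ∈ KS := by
  unfold KS
  exact Set.mem_image_of_mem (fun x : ℝ => ((0 : ℂ), (x : ℂ))) ⟨h0, h1⟩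

theorem mem_OO (χ w : ℂ) : (χ, w) ∈ OO ↔ 1 < (HH χ w).re ∧ ‖HH χ w‖ < 5 := Iff.rfl

theorem region : ∃ δ0 : ℝ, 0 < δ0 ∧ ∀ (χ w : ℂ) (x : ℝ), 3 / 16 ≤ x → x ≤ 13 / 16 → ‖χ‖ < δ0 →
    ‖w - x‖ < δ0 → 1 < (HH χ w).re ∧ ‖HH χ w‖ < 5 := by
  obtain ⟨δ0, hδ0, hth⟩ := isCompact_KS.exists_thickening_subset_open isOpen_OO KS_sub
  refine ⟨δ0, hδ0, ?_⟩
  intro χ w x hx0 hx1 hχ hw
  have h1 : (χ, w) ∈ thickening δ0 KS := by
    rw [mem_thickening_iff]
    refine ⟨((0 : ℂ), (x : ℂ)), mem_KS x hx0 hx1, ?_⟩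
    rw [Prod.dist_eq, max_lt_iff, dist_eq_norm, dist_eq_norm, sub_zero]
    exact ⟨hχ, hw⟩
  exact (mem_OO χ w).1 (hth h1)

theorem region2 : ∃ δ1 : ℝ, 0 < δ1 ∧ ∀ χ : ℂ, ‖χ‖ < δ1 → 0 < (2 * Complex.cos (χ / 2)).re := by
  have hc : ContinuousAt (fun χ : ℂ => (2 * Complex.cos (χ / 2)).re) 0 := by fun_prop
  have h0 : (0 : ℝ) < (2 * Complex.cos ((0 : ℂ) / 2)).re := by
    rw [zero_div, Complex.cos_zero]
    norm_num
  have h1 := hc.eventually_const_lt h0
  rw [Metric.eventually_nhds_iff] at h1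
  obtain ⟨δ1, h2, h3⟩ := h1
  exact ⟨δ1, h2, fun χ hχ => h3 (by rwa [dist_zero_right])⟩

/-- the logarithm -/
noncomputable def FF (χ w : ℂ) : ℂ := Complex.log (HH χ w)

theorem FF_symm (χ w : ℂ) : FF χ (1 - w) = FF χ w := by
  unfold FF
  rw [HH_symm]

theorem log_bound (z : ℂ) (h1 : 1 < z.re) (h2 : ‖z‖ < 5) : ‖Complex.log z‖ ≤ Real.log 5 + π := by
  have h3 : 1 < ‖z‖ := h1.trans_le (Complex.re_le_norm z)
  have h4 : 0 ≤ Real.log ‖z‖ := Real.log_nonneg h3.le
  have h5 : Real.log ‖z‖ ≤ Real.log 5 := Real.log_le_log (by linarith) h2.le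
  have h6 := Complex.abs_arg_le_pi z
  unfold Complex.log
  refine (norm_add_le _ _).trans ?_
  rw [norm_mul, Complex.norm_I, mul_one, Complex.norm_real, Complex.norm_real, Real.norm_eq_abs,
    Real.norm_eq_abs, abs_of_nonneg h4]
  linarith

theorem differentiable_HH (χ : ℂ) : Differentiable ℂ (HH χ) := by
  unfold HH
  fun_prop

theorem diff_iter {F : ℂ → ℂ} {s : Set ℂ} (hs : IsOpen s) (hF : DifferentiableOn ℂ F s) (k : ℕ) :
    DifferentiableOn ℂ (iteratedDeriv k F) s := by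
  induction k with
  | zero => rwa [iteratedDeriv_zero]
  | succ k ih =>
    rw [iteratedDeriv_succ]
    exact ih.deriv hs

/-- the sum over `t` from `d + 1` to `N - d` in terms of half of it -/
theorem sum_half (f : ℕ → ℂ) (N d : ℕ) (hd : 2 * d < N) (hf : ∀ t, t ≤ N → f (N - t) = f t) :
    ∑ j ∈ range (N - 2 * d), f (d + (j + 1)) =
      2 * ∑ t ∈ Ioc d ((N - 1) / 2), f t + (if N % 2 = 0 then f (N / 2) else 0) + f d := by
  -- the sum over `Ioc d (N - d)`
  have e0 : ∑ j ∈ range (N - 2 * d), f (d + (j + 1)) = ∑ t ∈ Ioc d (N - d), f t := by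
    rw [range_eq_Ico]
    have h1 : ∑ t ∈ Ico 0 (N - 2 * d), f (d + (t + 1)) = ∑ t ∈ Ico 0 (N - 2 * d),
        (fun u => f u) ((d + 1) + t) := by
      refine sum_congr rfl fun t _ => ?_
      show f _ = f _
      congr 1
      omega
    rw [h1, Finset.sum_Ico_add (fun u => f u) 0 (N - 2 * d) (d + 1)]
    refine sum_congr ?_ fun _ _ => rfl
    ext t
    simp only [mem_Ico, mem_Ioc]
    omega
  rw [e0]
  -- reflection
  have e1 : ∑ t ∈ Ioc d ((N - 1) / 2), f t = ∑ t ∈ Ico (N - (N - 1) / 2) (N - d), f t := by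
    refine Finset.sum_bij' (fun t _ => N - t) (fun t _ => N - t) ?_ ?_ ?_ ?_ ?_
    · intro t ht
      simp only [mem_Ioc, mem_Ico] at ht ⊢
      omega
    · intro t ht
      simp only [mem_Ioc, mem_Ico] at ht ⊢
      omega
    · intro t ht
      simp only [mem_Ioc, mem_Ico] at ht
      show N - (N - t) = t
      omega
    · intro t ht
      simp only [mem_Ioc, mem_Ico] at ht
      show N - (N - t) = t
      omega
    · intro t ht
      simp only [mem_Ioc] at ht
      exact (hf t (by omega)).symm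
  have e2 : ∑ t ∈ Ioc d (N - d), f t = ∑ t ∈ Ioc d ((N - 1) / 2), f t +
      (if N % 2 = 0 then f (N / 2) else 0) + ∑ t ∈ Ico (N - (N - 1) / 2) (N - d), f t + f (N - d) := by
    have hs : Ioc d (N - d) = (Ioc d ((N - 1) / 2) ∪ (if N % 2 = 0 then {N / 2} else ∅)) ∪
        (Ico (N - (N - 1) / 2) (N - d) ∪ {N - d}) := by
      ext t
      split_ifs with h
      · simp only [mem_union, mem_Ioc, mem_Ico, mem_singleton]
        omega
      · simp only [mem_union, mem_Ioc, mem_Ico, mem_singleton, Finset.notMem_empty, or_false]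
        omega
    rw [hs]
    have d1 : Disjoint (Ioc d ((N - 1) / 2) ∪ (if N % 2 = 0 then {N / 2} else ∅))
        (Ico (N - (N - 1) / 2) (N - d) ∪ {N - d}) := by
      rw [Finset.disjoint_left]
      intro t
      split_ifs with h
      · simp only [mem_union, mem_Ioc, mem_Ico, mem_singleton]
        omega
      · simp only [mem_union, mem_Ioc, mem_Ico, mem_singleton, Finset.notMem_empty, or_false]
        omega
    have d2 : Disjoint (Ioc d ((N - 1) / 2)) (if N % 2 = 0 then {N / 2} else ∅) := by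
      rw [Finset.disjoint_left]
      intro t
      split_ifs with h
      · simp only [mem_Ioc, mem_singleton]
        omega
      · simp
    have d3 : Disjoint (Ico (N - (N - 1) / 2) (N - d)) {N - d} := by
      rw [Finset.disjoint_left]
      intro t
      simp only [mem_Ico, mem_singleton]
      omega
    rw [sum_union d1, sum_union d2, sum_union d3]
    have e3 : ∑ t ∈ (if N % 2 = 0 then {N / 2} else (∅ : Finset ℕ)), f t =
        if N % 2 = 0 then f (N / 2) else 0 := by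
      split_ifs <;> simp
    rw [e3, sum_singleton]
    ring
  rw [e2, ← e1, hf d (by omega)]
  ring

theorem half_log (χ : ℂ) (h : 0 < (2 * Complex.cos (χ / 2)).re) :
    Complex.exp (FF χ (1 / 2) / 2) = 2 * Complex.cos (χ / 2) := by
  have e1 : HH χ (1 / 2) = (2 * Complex.cos (χ / 2)) ^ 2 := by
    unfold HH
    rw [show 2 * (π : ℂ) * (1 / 2) = π by ring, Complex.cos_pi]
    have h2 := Complex.cos_two_mul (χ / 2)
    rw [show 2 * (χ / 2) = χ by ring] at h2
    rw [h2]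
    ring
  have hne : (2 * Complex.cos (χ / 2)) ≠ 0 := by
    intro h0
    rw [h0, Complex.zero_re] at h
    exact lt_irrefl _ h
  have h3 := Complex.sq_cpow_two_inv h
  rw [Complex.cpow_def_of_ne_zero (pow_ne_zero 2 hne)] at h3
  unfold FF
  rw [e1, ← h3]
  congr 1
  rw [h3]
  ring

theorem int_half (χ : ℂ) (δ : ℝ) (hδ : δ ≤ 1 / 2)
    (hc : ContinuousOn (fun x : ℝ => FF χ (x : ℂ)) (Set.Icc δ (1 - δ))) :
    (∫ x in (0:ℝ)..(1 - 2 * δ), FF χ ((δ : ℂ) + x)) = 2 * rrF (1 / 2 - (δ : ℂ)) χ := by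
  -- the function centred at `1 / 2`
  obtain ⟨G, hG⟩ : ∃ G : ℝ → ℂ, G = fun y : ℝ => FF χ (1 / 2 + (y : ℂ)) := ⟨_, rfl⟩
  have hev : ∀ y : ℝ, G (-y) = G y := by
    intro y
    rw [hG]
    show FF χ (1 / 2 + ((-y : ℝ) : ℂ)) = FF χ (1 / 2 + (y : ℂ))
    rw [← FF_symm χ (1 / 2 + (y : ℂ))]
    congr 1
    push_cast
    ring
  have e1 : (∫ x in (0:ℝ)..(1 - 2 * δ), FF χ ((δ : ℂ) + x)) =
      ∫ y in (-(1 / 2 - δ))..(1 / 2 - δ), G y := by
    have h1 := intervalIntegral.integral_comp_sub_right (a := 0) (b := 1 - 2 * δ) G (1 / 2 - δ)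
    rw [show 0 - (1 / 2 - δ) = -(1 / 2 - δ) by ring,
      show 1 - 2 * δ - (1 / 2 - δ) = 1 / 2 - δ by ring] at h1
    rw [← h1]
    refine intervalIntegral.integral_congr fun x _ => ?_
    rw [hG]
    show FF χ ((δ : ℂ) + x) = FF χ (1 / 2 + ((x - (1 / 2 - δ) : ℝ) : ℂ))
    congr 1
    push_cast
    ring
  have hcG : ContinuousOn G (Set.Icc (-(1 / 2 - δ)) (1 / 2 - δ)) := by
    have h2 : G = (fun x : ℝ => FF χ (x : ℂ)) ∘ fun y : ℝ => 1 / 2 + y := by
      rw [hG]
      funext y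
      show _ = FF χ ((1 / 2 + y : ℝ) : ℂ)
      congr 1
      push_cast
      ring
    rw [h2]
    refine hc.comp (by fun_prop) ?_
    intro y hy
    show 1 / 2 + y ∈ Set.Icc δ (1 - δ)
    rw [Set.mem_Icc] at hy ⊢
    constructor <;> linarith [hy.1, hy.2]
  have i1 : IntervalIntegrable G MeasureTheory.volume (-(1 / 2 - δ)) 0 := by
    apply ContinuousOn.intervalIntegrable
    rw [Set.uIcc_of_le (by linarith)]
    exact hcG.mono (Set.Icc_subset_Icc le_rfl (by linarith))
  have i2 : IntervalIntegrable G MeasureTheory.volume 0 (1 / 2 - δ) := by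
    apply ContinuousOn.intervalIntegrable
    rw [Set.uIcc_of_le (by linarith)]
    exact hcG.mono (Set.Icc_subset_Icc (by linarith) le_rfl)
  have e2 : (∫ y in (-(1 / 2 - δ))..0, G y) = ∫ y in (0:ℝ)..(1 / 2 - δ), G y := by
    have h3 := intervalIntegral.integral_comp_neg (a := 0) (b := 1 / 2 - δ) G
    rw [neg_zero] at h3
    rw [← h3]
    exact intervalIntegral.integral_congr fun x _ => hev x
  rw [e1, ← intervalIntegral.integral_add_adjacent_intervals i1 i2, e2, ← two_mul]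
  congr 1
  have e3 := intervalIntegral.smul_integral_comp_mul_left (a := 0) (b := 1) G (1 / 2 - δ)
  rw [mul_zero, mul_one] at e3
  rw [← e3]
  unfold rrF
  rw [Complex.real_smul]
  have e4 : ∀ t : ℝ, G ((1 / 2 - δ) * t) =
      Complex.log (2 * Complex.cos χ + 2 * Complex.cos (2 * π * (1 / 2 - (δ : ℂ)) * t)) := by
    intro t
    rw [hG]
    show FF χ (1 / 2 + (((1 / 2 - δ) * t : ℝ) : ℂ)) = _
    unfold FF HH
    congr 1
    have h5 : (2 * (π : ℂ) * (1 / 2 + (((1 / 2 - δ) * t : ℝ) : ℂ))) =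
        2 * π * (1 / 2 - (δ : ℂ)) * t + π := by
      push_cast
      ring
    rw [h5, Complex.cos_add_pi]
    ring
  simp only [e4]
  push_cast
  rfl

theorem emt : Pool.Agent.Y482.Ph.S_EMT := by
  obtain ⟨b, hb⟩ := Pool.Agent.W571.FE.em 1 (by norm_num) (by norm_num)
  obtain ⟨δ0, hδ0, hG⟩ := region
  obtain ⟨δ1, hδ1, hG1⟩ := region2
  set B := Real.log 5 + π with hB
  have hB0 : 0 ≤ B := by
    have := Real.log_nonneg (show (1 : ℝ) ≤ 5 by norm_num)
    have := Real.pi_pos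
    rw [hB]; linarith
  have hreg : ∀ χ : ℂ, ‖χ‖ < δ0 → ∀ x : ℝ, 3 / 16 ≤ x → x ≤ 13 / 16 → ∀ w : ℂ, ‖w - x‖ < δ0 →
      DifferentiableAt ℂ (FF χ) w ∧ ‖FF χ w‖ ≤ B := by
    intro χ hχ x hx0 hx1 w hw
    obtain ⟨g1, g2⟩ := hG χ w x hx0 hx1 hχ hw
    refine ⟨?_, log_bound _ g1 g2⟩
    apply DifferentiableAt.clog (differentiable_HH χ w)
    rw [Complex.mem_slitPlane_iff]
    left; linarith
  have hball : ∀ χ : ℂ, ‖χ‖ < δ0 → ∀ x : ℝ, 3 / 16 ≤ x → x ≤ 13 / 16 →
      DifferentiableOn ℂ (FF χ) (ball (x : ℂ) δ0) := by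
    intro χ hχ x hx0 hx1 w hw
    rw [mem_ball, dist_eq_norm] at hw
    exact (hreg χ hχ x hx0 hx1 w hw).1.differentiableWithinAt
  have hcau : ∀ χ : ℂ, ‖χ‖ < δ0 → ∀ x : ℝ, 3 / 16 ≤ x → x ≤ 13 / 16 → ∀ w : ℂ,
      ‖w - x‖ < δ0 / 2 → ∀ k : ℕ, ‖iteratedDeriv k (FF χ) w‖ ≤ k.factorial * B / (δ0 / 4) ^ k := by
    intro χ hχ x hx0 hx1 w hw k
    have hsub : closedBall w (δ0 / 4) ⊆ ball (x : ℂ) δ0 := by
      intro y hy
      rw [mem_closedBall, dist_eq_norm] at hy
      rw [mem_ball, dist_eq_norm]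
      have e1 : y - x = (y - w) + (w - x) := by ring
      rw [e1]
      have := norm_add_le (y - w) (w - x)
      linarith
    apply Complex.norm_iteratedDeriv_le_of_forall_mem_sphere_norm_le k (by positivity)
    · exact (hball χ hχ x hx0 hx1).diffContOnCl_ball hsub
    · intro y hy
      have h1 := hsub (sphere_subset_closedBall hy)
      rw [mem_ball, dist_eq_norm] at h1
      exact (hreg χ hχ x hx0 hx1 y h1).2
  set ρ := min (1 / 16) (min (δ0 / 2) δ1) with hρ
  have hρ0 : 0 < ρ := lt_min (by norm_num) (lt_min (by positivity) hδ1)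
  have hρ1 : ρ ≤ 1 / 16 := min_le_left _ _
  have hρ2 : ρ ≤ δ0 / 2 := (min_le_right _ _).trans (min_le_left _ _)
  have hρ3 : ρ ≤ δ1 := (min_le_right _ _).trans (min_le_right _ _)
  have h14 : ((1 / 4 : ℝ) : ℂ) = 1 / 4 := by push_cast; ring
  have h34 : ((3 / 4 : ℝ) : ℂ) = 3 / 4 := by push_cast; ring
  -- the coefficients
  obtain ⟨tt, htt⟩ : ∃ tt : ℕ → ℂ → ℂ → ℂ, tt = fun k δ χ => (b k : ℂ) / 2 *
    (iteratedDeriv k (FF χ) (1 - δ) - iteratedDeriv k (FF χ) δ) -
      (if k = 0 then FF χ δ / 2 else 0) := ⟨_, rfl⟩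
  have hdiff : ∀ k, ∀ χ ∈ ball (0 : ℂ) ρ, DifferentiableOn ℂ (fun δ => tt k δ χ)
      (ball (1 / 4) ρ) := by
    intro k χ hχ
    rw [mem_ball, dist_zero_right] at hχ
    have h1 := hball χ (by linarith) (1 / 4) (by norm_num) (by norm_num)
    rw [h14] at h1
    have h1' := h1.mono (ball_subset_ball (x := (1 / 4 : ℂ)) (show ρ ≤ δ0 by linarith))
    have h2 := (diff_iter isOpen_ball h1 k).mono (ball_subset_ball (x := (1 / 4 : ℂ))
      (show ρ ≤ δ0 by linarith))
    have h3 := hball χ (by linarith) (3 / 4) (by norm_num) (by norm_num)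
    rw [h34] at h3
    have h4 := (diff_iter isOpen_ball h3 k).mono (ball_subset_ball (x := (3 / 4 : ℂ))
      (show ρ ≤ δ0 by linarith))
    have h5 : DifferentiableOn ℂ (fun δ => iteratedDeriv k (FF χ) (1 - δ)) (ball (1 / 4) ρ) := by
      refine h4.comp (f := fun δ : ℂ => 1 - δ) (by fun_prop) ?_
      intro δ hδ
      rw [mem_ball, dist_eq_norm] at hδ ⊢
      rw [show 1 - δ - 3 / 4 = -(δ - 1 / 4) by ring, norm_neg]
      exact hδ
    rw [htt]
    refine ((h5.sub h2).const_mul _).sub ?_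
    split_ifs
    · exact h1'.div_const _
    · exact differentiableOn_const _
  have hbd : ∀ k, ∃ B' : ℝ, ∀ δ ∈ ball (1 / 4 : ℂ) ρ, ∀ χ ∈ ball (0 : ℂ) ρ,
      ‖tt k δ χ‖ ≤ B' := by
    intro k
    refine ⟨|b k| / 2 * (k.factorial * B / (δ0 / 4) ^ k + k.factorial * B / (δ0 / 4) ^ k) + B, ?_⟩
    intro δ hδ χ hχ
    rw [mem_ball, dist_zero_right] at hχ
    rw [mem_ball, dist_eq_norm] at hδ
    have e1 := hcau χ (by linarith) (1 / 4) (by norm_num) (by norm_num) δ
      (by rw [h14]; linarith) k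
    have e2 := hcau χ (by linarith) (3 / 4) (by norm_num) (by norm_num) (1 - δ)
      (by rw [h34, show 1 - δ - 3 / 4 = -(δ - 1 / 4) by ring, norm_neg]; linarith) k
    have e3 := (hreg χ (by linarith) (1 / 4) (by norm_num) (by norm_num) δ
      (by rw [h14]; linarith)).2
    rw [htt]
    refine (norm_sub_le _ _).trans (add_le_add ?_ ?_)
    · rw [norm_mul, norm_div, Complex.norm_real, Real.norm_eq_abs, Complex.norm_ofNat]
      apply mul_le_mul_of_nonneg_left _ (by positivity)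
      exact (norm_sub_le _ _).trans (add_le_add e2 e1)
    · split_ifs
      · rw [norm_div, Complex.norm_ofNat]
        linarith [norm_nonneg (FF χ δ)]
      · rw [norm_zero]
        exact hB0
  -- the expansion, at least one term
  have hmain : ∀ K : ℕ, ∃ C : ℝ, 0 ≤ C ∧ ∀ᶠ N : ℕ in atTop, ∀ d : ℕ, |(d : ℝ) / N - 1 / 4| < ρ →
      ∀ χ ∈ ball (0 : ℂ) ρ, ∃ e : ℂ, ‖e‖ ≤ C / (N : ℝ) ^ (K + 1) ∧
        Tg N d χ = Complex.exp (N * rrF (1 / 2 - (d : ℂ) / N) χ +
          ∑ k ∈ range (K + 1), tt k ((d : ℂ) / N) χ / (N : ℂ) ^ k + e) := by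
    intro K
    obtain ⟨C, hC0, hC⟩ := hb (K + 1)
    refine ⟨C * (B * (1 / δ0) ^ (K + 2)), by positivity, ?_⟩
    filter_upwards [eventually_ge_atTop (max 1 ⌈4 / δ0⌉₊)] with N hN d hd χ hχ
    rw [mem_ball, dist_zero_right] at hχ
    have hN1 : 1 ≤ N := (le_max_left _ _).trans hN
    have hNr : (0 : ℝ) < N := by exact_mod_cast hN1
    have hNc : (N : ℂ) ≠ 0 := by
      have : N ≠ 0 := by omega
      exact_mod_cast this
    have hN4 : 4 / δ0 ≤ N := by
      have h1 : ⌈4 / δ0⌉₊ ≤ N := (le_max_right _ _).trans hN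
      exact (Nat.le_ceil _).trans (by exact_mod_cast h1)
    have hε : 4 * (1 / (N : ℝ)) ≤ δ0 := by
      rw [mul_one_div, div_le_iff₀ hNr]
      rw [div_le_iff₀ hδ0] at hN4
      linarith
    rw [abs_lt] at hd
    have hd0 : 3 / 16 < (d : ℝ) / N := by linarith
    have hd1 : (d : ℝ) / N < 5 / 16 := by linarith
    have h2d : 2 * d < N := by
      have h1 : (d : ℝ) < 5 / 16 * N := by rwa [div_lt_iff₀ hNr] at hd1
      have h2 : (2 * d : ℝ) < N := by linarith
      exact_mod_cast h2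
    have hn : ((N - 2 * d : ℕ) : ℝ) = N - 2 * d := by
      rw [Nat.cast_sub h2d.le]
      push_cast
      ring
    have hnc : ((N - 2 * d : ℕ) : ℂ) = N - 2 * d := by
      rw [Nat.cast_sub h2d.le]
      push_cast
      ring
    have hnN : ((N - 2 * d : ℕ) : ℝ) * (1 / (N : ℝ)) = 1 - 2 * ((d : ℝ) / N) := by
      rw [hn]
      field_simp
    obtain ⟨z, hz⟩ : ∃ z : ℂ, z = (((d : ℝ) / N : ℝ) : ℂ) := ⟨_, rfl⟩
    have hz' : (d : ℂ) / N = z := by rw [hz]; push_cast; rfl
    have hem := hC (FF χ) z (N - 2 * d) (1 / (N : ℝ)) δ0 B (by positivity) hε (by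
      intro x hx0 hx1 w hw
      rw [hnN] at hx1
      have h1 : z + x = (((d : ℝ) / N + x : ℝ) : ℂ) := by rw [hz]; push_cast; rfl
      rw [h1] at hw
      exact hreg χ (by linarith) ((d : ℝ) / N + x) (by linarith) (by linarith) w hw)
    -- the function on integers
    obtain ⟨f, hf⟩ : ∃ f : ℕ → ℂ, f = fun t : ℕ => FF χ ((t : ℂ) / N) := ⟨_, rfl⟩
    have hfs : ∀ t, t ≤ N → f (N - t) = f t := by
      intro t ht
      rw [hf]
      show FF χ (((N - t : ℕ) : ℂ) / N) = FF χ ((t : ℂ) / N)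
      rw [← FF_symm χ ((t : ℂ) / N)]
      congr 1
      rw [Nat.cast_sub ht]
      field_simp
    have hsum := sum_half f N d h2d hfs
    have hsum' : ∑ j ∈ range (N - 2 * d), FF χ (z + ((1 / (N : ℝ) : ℝ) : ℂ) *
        ((j : ℂ) + ((1 : ℝ) : ℂ))) = ∑ j ∈ range (N - 2 * d), f (d + (j + 1)) := by
      refine sum_congr rfl fun j _ => ?_
      rw [hf, ← hz']
      show _ = FF χ (((d + (j + 1) : ℕ) : ℂ) / N)
      congr 1
      push_cast
      field_simp
    -- the value
    have hval : Tg N d χ = Complex.exp (1 / 2 * (∑ j ∈ range (N - 2 * d), f (d + (j + 1)) - f d)) := by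
      rw [hsum]
      have h1 : (1 / 2 : ℂ) * (2 * ∑ t ∈ Ioc d ((N - 1) / 2), f t +
          (if N % 2 = 0 then f (N / 2) else 0) + f d - f d) =
          (if N % 2 = 0 then f (N / 2) else 0) / 2 + ∑ t ∈ Ioc d ((N - 1) / 2), f t := by ring
      rw [h1, Complex.exp_add, Complex.exp_sum]
      unfold Tg
      congr 1
      · split_ifs with h
        · have h2 : f (N / 2) = FF χ (1 / 2) := by
            rw [hf]
            show FF χ (((N / 2 : ℕ) : ℂ) / N) = _
            congr 1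
            obtain ⟨m, hm⟩ : ∃ m, N = 2 * m := ⟨N / 2, by omega⟩
            have hm0 : (m : ℂ) ≠ 0 := by
              have : m ≠ 0 := by omega
              exact_mod_cast this
            rw [hm, show 2 * m / 2 = m by omega]
            push_cast
            field_simp
          rw [h2, half_log χ (hG1 χ (by linarith))]
        · rw [zero_div, Complex.exp_zero]
      · refine prod_congr rfl fun t ht => ?_
        rw [mem_Ioc] at ht
        have ht1 : (d : ℝ) / N ≤ (t : ℝ) / N :=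
          div_le_div_of_nonneg_right (by exact_mod_cast ht.1.le) hNr.le
        have ht2 : (t : ℝ) / N ≤ 1 / 2 := by
          rw [div_le_iff₀ hNr]
          have h3 : 2 * t ≤ N := by omega
          have h4 : (2 * t : ℝ) ≤ N := by exact_mod_cast h3
          linarith
        have hg := hG χ (((t : ℝ) / N : ℝ) : ℂ) ((t : ℝ) / N) (by linarith) (by linarith)
          (by linarith) (by rw [sub_self, norm_zero]; exact hδ0)
        have hg0 : HH χ (((t : ℝ) / N : ℝ) : ℂ) ≠ 0 := by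
          intro h0
          rw [h0, Complex.zero_re] at hg
          linarith [hg.1]
        have h5 : f t = Complex.log (HH χ (((t : ℝ) / N : ℝ) : ℂ)) := by
          rw [hf]
          show FF χ ((t : ℂ) / N) = _
          unfold FF
          congr 2
          push_cast
          rfl
        rw [h5, Complex.exp_log hg0]
        unfold HH
        rw [Complex.ofReal_cos]
        congr 3
        push_cast
        ring
    -- the integral
    have hcont : ContinuousOn (fun x : ℝ => FF χ (x : ℂ))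
        (Set.Icc ((d : ℝ) / N) (1 - (d : ℝ) / N)) := by
      intro x hx
      rw [Set.mem_Icc] at hx
      have h1 := (hreg χ (by linarith) x (by linarith) (by linarith) x
        (by rw [sub_self, norm_zero]; exact hδ0)).1.continuousAt
      exact (h1.comp (f := fun x : ℝ => (x : ℂ))
        Complex.continuous_ofReal.continuousAt).continuousWithinAt
    have hint := int_half χ ((d : ℝ) / N) (by linarith) hcont
    rw [hnN] at hem
    rw [← hz] at hint
    rw [hint, hsum'] at hem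
    obtain ⟨E, hE⟩ : ∃ E : ℂ, E = (∑ j ∈ range (N - 2 * d), f (d + (j + 1))) -
        (((1 / (N : ℝ) : ℝ)) : ℂ)⁻¹ * (2 * rrF (1 / 2 - z) χ) -
        ∑ k ∈ range (K + 1), (b k : ℂ) * ((1 / (N : ℝ) : ℝ) : ℂ) ^ k *
        (iteratedDeriv k (FF χ) (z + ((N - 2 * d : ℕ) : ℂ) * ((1 / (N : ℝ) : ℝ) : ℂ)) -
          iteratedDeriv k (FF χ) z) := ⟨_, rfl⟩
    rw [← hE] at hem
    refine ⟨E / 2, ?_, ?_⟩
    · rw [norm_div, Complex.norm_ofNat]
      have h6 : ‖E‖ / 2 ≤ ‖E‖ := by linarith [norm_nonneg E]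
      refine h6.trans (hem.trans ?_)
      have hnle : ((N - 2 * d : ℕ) : ℝ) ≤ N := by
        rw [hn]
        have : (0 : ℝ) ≤ d := Nat.cast_nonneg d
        linarith
      have e3 : C * (((N - 2 * d : ℕ) : ℝ) * B * (1 / (N : ℝ) / δ0) ^ (K + 1 + 1)) ≤
          C * ((N : ℝ) * B * (1 / (N : ℝ) / δ0) ^ (K + 1 + 1)) := by
        apply mul_le_mul_of_nonneg_left _ hC0
        apply mul_le_mul_of_nonneg_right _ (by positivity)
        exact mul_le_mul_of_nonneg_right hnle hB0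
      refine e3.trans (le_of_eq ?_)
      have e4 : (1 / (N : ℝ) / δ0) ^ (K + 1 + 1) =
          (1 / (N : ℝ)) ^ (K + 1 + 1) * (1 / δ0) ^ (K + 2) := by
        rw [← mul_pow]
        congr 1
        ring
      rw [e4]
      have e5 : (N : ℝ) * (1 / (N : ℝ)) ^ (K + 1 + 1) = 1 / (N : ℝ) ^ (K + 1) := by
        rw [pow_succ, one_div, inv_pow, one_div]
        field_simp
      calc C * ((N : ℝ) * B * ((1 / (N : ℝ)) ^ (K + 1 + 1) * (1 / δ0) ^ (K + 2)))
          = C * (B * (1 / δ0) ^ (K + 2)) * ((N : ℝ) * (1 / (N : ℝ)) ^ (K + 1 + 1)) := by ring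
        _ = _ := by rw [e5]; ring
    · rw [hval]
      congr 1
      rw [hz']
      have e7 : z + ((N - 2 * d : ℕ) : ℂ) * ((1 / (N : ℝ) : ℝ) : ℂ) = 1 - z := by
        rw [hnc, ← hz']
        push_cast
        field_simp
        ring
      rw [e7] at hE
      have e6 : ∑ k ∈ range (K + 1), tt k z χ / (N : ℂ) ^ k =
          1 / 2 * ∑ k ∈ range (K + 1), (b k : ℂ) * ((1 / (N : ℝ) : ℝ) : ℂ) ^ k *
          (iteratedDeriv k (FF χ) (1 - z) - iteratedDeriv k (FF χ) z) - f d / 2 := by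
        have h8 : ∀ k ∈ range (K + 1), tt k z χ / (N : ℂ) ^ k =
            1 / 2 * ((b k : ℂ) * ((1 / (N : ℝ) : ℝ) : ℂ) ^ k *
            (iteratedDeriv k (FF χ) (1 - z) - iteratedDeriv k (FF χ) z)) -
            (if k = 0 then f d / 2 else 0) := by
          intro k _
          rw [htt]
          show ((b k : ℂ) / 2 * (iteratedDeriv k (FF χ) (1 - z) - iteratedDeriv k (FF χ) z) -
            (if k = 0 then FF χ z / 2 else 0)) / (N : ℂ) ^ k = _
          by_cases hk : k = 0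
          · have hfd : f d = FF χ z := by rw [hf, ← hz']
            rw [if_pos hk, if_pos hk, hk, hfd]
            push_cast
            ring
          · rw [if_neg hk, if_neg hk]
            have h9 : ((1 / (N : ℝ) : ℝ) : ℂ) ^ k = 1 / (N : ℂ) ^ k := by
              push_cast
              rw [one_div_pow]
            rw [h9]
            ring
        rw [sum_congr rfl h8, sum_sub_distrib, ← mul_sum, sum_ite_eq']
        rw [if_pos (by simp)]
      rw [e6]
      have e9 : ((1 / (N : ℝ) : ℝ) : ℂ)⁻¹ = N := by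
        push_cast
        rw [one_div, inv_inv]
      rw [e9] at hE
      linear_combination (-1 / 2 : ℂ) * hE
  refine ⟨ρ, hρ0, hρ1, tt, hdiff, hbd, ?_⟩
  intro K
  rcases K with _ | K
  · obtain ⟨C, hC0, hC⟩ := hmain 0
    obtain ⟨B', hB'⟩ := hbd 0
    refine ⟨B' + C, ?_⟩
    filter_upwards [hC, eventually_ge_atTop 1] with N h1 hN1 d hd χ hχ
    obtain ⟨e, he1, he2⟩ := h1 d hd χ hχ
    have hNr : (1 : ℝ) ≤ N := by exact_mod_cast hN1
    refine ⟨tt 0 ((d : ℂ) / N) χ + e, ?_, ?_⟩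
    · rw [pow_zero, div_one]
      refine (norm_add_le _ _).trans (add_le_add (hB' _ ?_ χ hχ) ?_)
      · rw [mem_ball, dist_eq_norm]
        have h2 : (d : ℂ) / N - 1 / 4 = (((d : ℝ) / N - 1 / 4 : ℝ) : ℂ) := by push_cast; ring
        rw [h2, Complex.norm_real, Real.norm_eq_abs]
        exact hd
      · refine he1.trans ?_
        rw [zero_add, pow_one]
        exact div_le_self hC0 hNr
    · rw [he2]
      congr 1
      simp
      ring
  · obtain ⟨C, -, hC⟩ := hmain K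
    exact ⟨C, hC⟩

end Pool.Agent.Y814.PH.Emt
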