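import Pool.Agent.Y489.PH.Stm
import Pool.Agent.Y485.HS.Loc

/-!
Project PH, job PH-LOCP (helper814): the local theorem for pro-p groups.
-/

set_option autoImplicit false

open MeasureTheory Set Metric Filter Topology
open scoped ENNReal NNReal

noncomputable section

namespace Pool.Agent.Y814.PH

open Pool.Agent.Y485.HS Pool.Agent.Y489.PH

theorem anti_of_det {n : ℕ} (L : E n →L[ℝ] E n) (h : L.det ≠ 0) :
    ∃ C, AntilipschitzWith C L := by
  have h1 := (L.toContinuousLinearEquivOfDetNeZero h).antilipschitz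
  have h2 : ((L.toContinuousLinearEquivOfDetNeZero h : E n ≃L[ℝ] E n) : E n → E n) = L := by
    ext x
    rw [ContinuousLinearMap.toContinuousLinearEquivOfDetNeZero_apply]
  rw [h2] at h1
  exact ⟨_, h1⟩

theorem finite_fib {n : ℕ} (F : E n → E n) (hF : ContinuousOn F (BB n))
    (hd : ∀ x ∈ BB n, dist (F x) x ≤ 1 / 4) (y : E n) (hy : ‖y‖ < 1)
    (hg : ∀ x ∈ ball (0 : E n) 3, F x = y → ∃ L : E n →L[ℝ] E n, HasFDerivAt F L x ∧ L.det ≠ 0) :
    {x | x ∈ ball (0 : E n) 3 ∧ F x = y}.Finite := by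
  by_contra hinf
  have hinf' : {x | x ∈ ball (0 : E n) 3 ∧ F x = y}.Infinite := hinf
  obtain ⟨S, hS⟩ : ∃ S : Set (E n), S = {x | x ∈ ball (0 : E n) 3 ∧ F x = y} := ⟨_, rfl⟩
  rw [← hS] at hinf'
  have hsub : S ⊆ closedBall (0 : E n) (5 / 4) := by
    intro x hx
    rw [hS] at hx
    obtain ⟨hx1, hx2⟩ := hx
    have hx3 : ‖x‖ < 3 := by simpa using hx1
    have := hd x (mem_BB.2 (by linarith))
    rw [hx2, dist_eq_norm] at this
    rw [mem_closedBall_zero_iff]
    calc ‖x‖ = ‖y - (y - x)‖ := by congr 1; abel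
      _ ≤ ‖y‖ + ‖y - x‖ := norm_sub_le _ _
      _ ≤ _ := by linarith
  have hcl : IsClosed S := by
    have h1 : S = closedBall (0 : E n) (5 / 4) ∩ F ⁻¹' {y} := by
      ext x
      constructor
      · intro hx
        refine ⟨hsub hx, ?_⟩
        rw [hS] at hx
        exact hx.2
      · rintro ⟨hx1, hx2⟩
        rw [hS]
        refine ⟨?_, hx2⟩
        rw [mem_closedBall_zero_iff] at hx1
        rw [mem_ball_zero_iff]
        linarith
    rw [h1]
    apply (hF.mono (fun x hx => ?_)).preimage_isClosed_of_isClosed isClosed_closedBall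
      isClosed_singleton
    rw [mem_closedBall_zero_iff] at hx
    exact mem_BB.2 (by linarith)
  obtain ⟨x, -, hx⟩ := hinf'.exists_accPt_of_subset_isCompact (isCompact_closedBall _ _) hsub
  have hxS : x ∈ S := hcl.closure_eq ▸ (mem_closure_iff_clusterPt.2 hx.clusterPt)
  rw [hS] at hxS
  obtain ⟨L, hL, hdet⟩ := hg x hxS.1 hxS.2
  have h1 := hL.eventually_ne (c := y) (anti_of_det L hdet)
  rw [accPt_iff_frequently_nhdsNE] at hx
  obtain ⟨z, hz1, hz2⟩ := (hx.and_eventually h1).exists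
  rw [hS] at hz1
  exact hz2 hz1.2

/-- job PH-LOCP -/
theorem t_LOCP : S_DEG → S_GEN → S_SGN → S_COUNT → S_LOCP := by
  intro hDEG hGEN hSGN hCO p hp n hn K _ _ _ _ _ _ _ μ _ _ T hT hKp hPL
  obtain ⟨F, hF⟩ : ∃ F : E n → E n, F = fun x => ∫ k, T k⁻¹ x ∂μ := ⟨_, rfl⟩
  rw [← hF] at hPL
  have hSc1 : ∀ x ∈ BB n, Continuous (fun k => T k⁻¹ x) := fun x hx =>
    (hT.cont_left hx).comp continuous_inv
  have hSint : ∀ x ∈ BB n, Integrable (fun k => T k⁻¹ x) μ := fun x hx =>
    (hSc1 x hx).integrable_of_hasCompactSupport (HasCompactSupport.of_compactSpace _)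
  have hFc : ContinuousOn F (BB n) := by
    rw [hF]
    apply continuousOn_integral_of_compact_support (k := univ) isCompact_univ
    · have hc : Continuous (fun q : E n × K => (q.2⁻¹, q.1)) := by fun_prop
      refine hT.cont.comp hc.continuousOn ?_
      rintro ⟨x, k⟩ ⟨hx, -⟩
      exact ⟨mem_univ _, hx⟩
    · intro x k _ hk
      exact absurd (mem_univ k) hk
  have hdisp : ∀ x ∈ BB n, dist (F x) x ≤ 1 / 4 := by
    intro x hx
    have h1 : F x - x = ∫ k, (T k⁻¹ x - x) ∂μ := by
      rw [integral_sub (hSint x hx) (integrable_const _)]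
      simp [hF]
    rw [dist_eq_norm, h1]
    have h2 := norm_integral_le_of_norm_le_const (μ := μ) (f := fun k => T k⁻¹ x - x) (C := 1 / 4)
      (Eventually.of_forall fun k => by
        have := hT.disp k⁻¹ x hx
        rwa [dist_eq_norm] at this)
    simpa using h2
  have hinv : ∀ k : K, ∀ x ∈ BB n, T k x ∈ BB n → F (T k x) = F x := by
    intro k x hx hkx
    have h1 : ∀ k' : K, T k'⁻¹ (T k x) = (fun j : K => T j⁻¹ x) (k⁻¹ * k') := by
      intro k'
      show T k'⁻¹ (T k x) = T (k⁻¹ * k')⁻¹ x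
      rw [← hT.mul _ _ x hx hkx]
      congr 1
      group
    rw [hF]
    show ∫ k', T k'⁻¹ (T k x) ∂μ = ∫ k', T k'⁻¹ x ∂μ
    simp_rw [h1]
    exact integral_mul_left_eq_self (fun k' : K => T k'⁻¹ x) k⁻¹
  -- almost every point is fixed
  have hfix : ∀ᵐ y : E n, y ∈ ball (0 : E n) 1 → ∀ k : K, T k y = y := by
    filter_upwards [hGEN n hn F hFc hPL] with y hg hy1
    have hy1' : ‖y‖ < 1 := by simpa using hy1
    have hfin := finite_fib F hFc hdisp y hy1' hg
    by_contra hcon
    obtain ⟨P, hPdef⟩ : ∃ P : Finset (E n), P = hfin.toFinset := ⟨_, rfl⟩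
    have hPm : ∀ x, x ∈ P ↔ x ∈ ball (0 : E n) 3 ∧ F x = y := by
      intro x
      rw [hPdef, Set.Finite.mem_toFinset]
      rfl
    have hPn : ∀ x ∈ P, ‖x‖ < 5 / 4 := by
      intro x hx
      obtain ⟨hx3, hFx⟩ := (hPm x).1 hx
      have hx3' : ‖x‖ < 3 := by simpa using hx3
      have hxB : x ∈ BB n := mem_BB.2 (by linarith)
      have := hdisp x hxB
      rw [hFx, dist_eq_norm] at this
      calc ‖x‖ = ‖y - (y - x)‖ := by congr 1; abel
        _ ≤ ‖y‖ + ‖y - x‖ := norm_sub_le _ _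
        _ < _ := by linarith
    have hPB : ∀ x ∈ P, x ∈ BB n := fun x hx => mem_BB.2 (by have := hPn x hx; linarith)
    have hD : ∀ x ∈ P, HasFDerivAt F (fderiv ℝ F x) x ∧ (fderiv ℝ F x).det ≠ 0 := by
      intro x hx
      obtain ⟨L, hL, hdet⟩ := hg x ((hPm x).1 hx).1 ((hPm x).1 hx).2
      rw [hL.fderiv]
      exact ⟨hL, hdet⟩
    have hPinv : ∀ γ ∈ (univ : Set K), ∀ x ∈ P, T γ x ∈ P ∧
        ((SignType.sign (fderiv ℝ F (T γ x)).det : SignType) : ℤ) =
          ((SignType.sign (fderiv ℝ F x).det : SignType) : ℤ) := by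
      intro γ _ x hx
      obtain ⟨hx3, hFx⟩ := (hPm x).1 hx
      have hn5 := hPn x hx
      have hTn := norm_T_le hT γ (hPB x hx)
      have hTB : T γ x ∈ BB n := mem_BB.2 (by linarith)
      have hTP : T γ x ∈ P := by
        refine (hPm _).2 ⟨?_, ?_⟩
        · rw [mem_ball_zero_iff]
          linarith
        · rw [hinv γ x (hPB x hx) hTB, hFx]
      refine ⟨hTP, ?_⟩
      have hgood := hSGN n hn K T hT F γ (fun z hz => by
        rw [mem_ball_zero_iff] at hz
        have hzB : z ∈ BB n := mem_BB.2 (by linarith)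
        have := norm_T_le hT γ hzB
        exact hinv γ z hzB (mem_BB.2 (by linarith))) x (by
          rw [mem_ball_zero_iff]
          linarith) _ _ (hD x hx).1 (hD x hx).2 (hD _ hTP).1 (hD _ hTP).2
      rcases lt_or_gt_of_ne (hD x hx).2 with h | h
      · have h' : (fderiv ℝ F (T γ x)).det < 0 := by
          by_contra h2
          push Not at h2
          have := mul_nonpos_of_nonpos_of_nonneg h.le h2
          linarith
        rw [sign_neg h, sign_neg h']
      · have h' : 0 < (fderiv ℝ F (T γ x)).det := (pos_iff_pos_of_mul_pos hgood).1 h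
        rw [sign_pos h, sign_pos h']
    have hPs := hDEG n hn F hFc hdisp y (by rw [mem_ball_zero_iff]; linarith) P
      (fun x => fderiv ℝ F x) hPm hD
    have hdvd := hCO p hp n K T hKp hT (univ : Set K)
      (fun k ε hε => ⟨k, mem_univ k, fun x _ => by rw [dist_self]; exact hε⟩) P
      (fun x => ((SignType.sign (fderiv ℝ F x).det : SignType) : ℤ))
      (fun x hx => by have := hPn x hx; linarith) hPinv ?_
    · rw [hPs] at hdvd
      have h1 := Int.natCast_dvd_natCast.1 (by simpa using hdvd : (p : ℤ) ∣ ((1 : ℕ) : ℤ))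
      exact hp.one_lt.ne' (Nat.dvd_one.1 h1)
    · intro x hx
      by_contra hall
      push Not at hall
      apply hcon
      have hFx := ((hPm x).1 hx).2
      have h1 : F x = x := by
        rw [hF]
        show ∫ k, T k⁻¹ x ∂μ = x
        simp_rw [hall]
        simp
      have hxy : x = y := by rw [← h1, hFx]
      rw [← hxy]
      exact hall
  intro k x hx
  by_contra hne
  have hsub : ball (0 : E n) 1 ⊆ BB n := by
    intro z hz
    rw [mem_ball_zero_iff] at hz
    exact mem_BB.2 (by linarith)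
  have hop : IsOpen (ball (0 : E n) 1 ∩ (fun z => T k z - z) ⁻¹' {0}ᶜ) :=
    (((hT.cont_right k).mono hsub).sub continuousOn_id).isOpen_inter_preimage isOpen_ball
      isClosed_singleton.isOpen_compl
  have hpos := hop.measure_pos volume ⟨x, hx, by
    rw [mem_preimage, mem_compl_iff, mem_singleton_iff, sub_eq_zero]
    exact hne⟩
  have hz : volume (ball (0 : E n) 1 ∩ (fun z => T k z - z) ⁻¹' {0}ᶜ) = 0 := by
    refine measure_mono_null ?_ (ae_iff.1 hfix)
    rintro z ⟨hz1, hz2⟩ hz3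
    rw [mem_preimage, mem_compl_iff, mem_singleton_iff, sub_eq_zero] at hz2
    exact hz2 (hz3 hz1 k)
  rw [hz] at hpos
  exact lt_irrefl _ hpos

end Pool.Agent.Y814.PH
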